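import Mathlib
import Pool.Agent.Lib.helper3.Coins

/-! Binomial tails and the branching property of i.i.d. fields on the Ulam tree. -/

set_option linter.unusedSectionVars false

namespace Pool.Agent.H.MP_12274d_pr

open MeasureTheory ProbabilityTheory Finset
open scoped ENNReal

noncomputable def h : ℕ → ℕ → ℝ → ℝ
  | _, 0, _ => 1
  | 0, _ + 1, _ => 0
  | k + 1, r + 1, y => y * h k r y + (1 - y) * h k (r + 1) y

lemma h_diff (y : ℝ) : ∀ k j, h k j y - h k (j + 1) y = k.choose j * y ^ j * (1 - y) ^ (k - j)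
  | 0, 0 => by simp [h]
  | 0, j + 1 => by simp [h]
  | k + 1, 0 => by
    have := h_diff y k 0
    simp only [h, Nat.choose_zero_right, Nat.cast_one, pow_zero, Nat.sub_zero, pow_succ] at this ⊢
    rw [← mul_assoc, ← this]; ring
  | k + 1, j + 1 => by
    have a := h_diff y k j
    have b := h_diff y k (j + 1)
    have c : (k.choose (j + 1) : ℝ) * (1 - y) ^ (k - j) =
        k.choose (j + 1) * (1 - y) ^ (k - (j + 1)) * (1 - y) := by
      rcases le_or_gt (j + 1) k with e | e
      · rw [show k - j = k - (j + 1) + 1 by omega]; ring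
      · simp [Nat.choose_eq_zero_of_lt e]
    simp only [h, Nat.choose_succ_succ, Nat.cast_add, Nat.succ_sub_succ]
    linear_combination y * a + (1 - y) * b - y ^ (j + 1) * c

lemma h_anti {y : ℝ} (h0 : 0 ≤ y) (h1 : y ≤ 1) (k j : ℕ) : h k (j + 1) y ≤ h k j y := by
  have := h_diff y k j
  have : 0 ≤ (k.choose j : ℝ) * y ^ j * (1 - y) ^ (k - j) := by
    have : 0 ≤ 1 - y := by linarith
    positivity
  linarith

lemma h_le {y : ℝ} (h0 : 0 ≤ y) (h1 : y ≤ 1) (k : ℕ) : ∀ j, h k j y ≤ 1
  | 0 => by simp [h]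
  | j + 1 => (h_anti h0 h1 k j).trans (h_le h0 h1 k j)

lemma h_mono {y y' : ℝ} (h0 : 0 ≤ y) (h1 : y ≤ y') (h2 : y' ≤ 1) : ∀ k j, h k j y ≤ h k j y'
  | _, 0 => by simp [h]
  | 0, _ + 1 => by simp [h]
  | k + 1, j + 1 => by
    have a := h_mono h0 h1 h2 k j
    have b := h_mono h0 h1 h2 k (j + 1)
    have c := h_anti h0 (h1.trans h2) k j
    simp only [h]
    nlinarith [mul_nonneg (h0.trans h1) (sub_nonneg.2 a), mul_nonneg (sub_nonneg.2 h2) (sub_nonneg.2 b),
      mul_nonneg (sub_nonneg.2 h1) (sub_nonneg.2 c)]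

noncomputable def g (k r : ℕ) (y : ℝ) : ℝ :=
  ∑ m ∈ range k, (m.choose (r + 1) : ℝ) * (y ^ r * (1 - y) ^ (m - (r + 1)))

lemma h_eq (r : ℕ) (y : ℝ) : ∀ k, h k (r + 2) y = y ^ 2 * g k r y
  | 0 => by simp [h, g]
  | k + 1 => by
    have a := h_eq r y k
    have b := h_diff y k (r + 1)
    simp only [g, sum_range_succ] at a ⊢
    rw [h]
    linear_combination a + y * b

lemma beta : ∀ b a : ℕ, ∫ y in (0 : ℝ)..1, y ^ a * (1 - y) ^ b =
    a.factorial * b.factorial / (a + b + 1).factorial
  | 0, a => by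
    have : (a.factorial : ℝ) ≠ 0 := by positivity
    simp [Nat.factorial_succ]; field_simp
  | b + 1, a => by
    have e : ∀ y : ℝ, y ^ a * (1 - y) ^ (b + 1) = y ^ a * (1 - y) ^ b - y ^ (a + 1) * (1 - y) ^ b :=
      fun y => by ring
    simp only [e]
    rw [intervalIntegral.integral_sub (Continuous.intervalIntegrable (by fun_prop) _ _)
      (Continuous.intervalIntegrable (by fun_prop) _ _), beta b a, beta b (a + 1),
      show a + 1 + b + 1 = a + b + 1 + 1 by ring, show a + (b + 1) + 1 = a + b + 1 + 1 by ring,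
      Nat.factorial_succ (a + b + 1), Nat.factorial_succ a, Nat.factorial_succ b]
    have : ((a + b + 1).factorial : ℝ) ≠ 0 := by positivity
    push_cast
    field_simp
    ring

lemma g_int (k r : ℕ) : ∫ y in (0 : ℝ)..1, g k r y ≤ k / (r + 1) := by
  unfold g
  rw [intervalIntegral.integral_finsetSum fun _ _ => Continuous.intervalIntegrable (by fun_prop) _ _]
  calc _ ≤ ∑ m ∈ range k, (1 / (r + 1) : ℝ) := sum_le_sum fun m _ => ?_
    _ = _ := by simp [div_eq_mul_inv]
  rw [intervalIntegral.integral_const_mul, beta]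
  rcases le_or_gt (r + 1) m with e | e
  · obtain ⟨d, rfl⟩ := Nat.exists_eq_add_of_le e
    rw [Nat.add_sub_cancel_left, show r + d + 1 = r + 1 + d by ring, Nat.cast_choose _ e,
      Nat.add_sub_cancel_left, Nat.factorial_succ r]
    apply le_of_eq
    push_cast
    field_simp
  · simp [Nat.choose_eq_zero_of_lt e]; positivity

lemma exy (ξ : Measure ℕ) (r : ℕ) {b p : ℝ} (hb0 : 0 ≤ b)
    (hb : ∫⁻ k, (k : ℝ≥0∞) ∂ξ = ENNReal.ofReal b) (hp : 0 < p) (hp1 : p < 1)
    (hl : b / (r + 1) + 1 < -Real.log p) :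
    ∃ y, p < y ∧ y < 1 ∧ ∫⁻ k, ENNReal.ofReal (h k (r + 2) y) ∂ξ ≤ ENNReal.ofReal (y - p) := by
  by_contra hc
  push Not at hc
  have co : ContinuousOn (fun y => (y - p) / y ^ 2) (Set.Icc p 1) :=
    ContinuousOn.div (by fun_prop) (by fun_prop) fun y hy => pow_ne_zero _ (hp.trans_le hy.1).ne'
  have i1 : ∫ y in p..1, (y - p) / y ^ 2 = (Real.log 1 + p / 1) - (Real.log p + p / p) := by
    refine intervalIntegral.integral_eq_sub_of_hasDerivAt (f := fun y => Real.log y + p / y)
      (fun y hy => ?_) (ContinuousOn.intervalIntegrable ?_)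
    · rw [Set.uIcc_of_le hp1.le] at hy
      have : y ≠ 0 := (hp.trans_le hy.1).ne'
      refine ((Real.hasDerivAt_log this).add
        ((hasDerivAt_const y p).div (hasDerivAt_id y) this)).congr_deriv ?_
      simp only [id]; field_simp; ring
    · rw [Set.uIcc_of_le hp1.le]
      exact co
  have cg : ∀ k, Continuous (g k r) := fun k => by unfold g; fun_prop
  have i2 : ∀ k : ℕ, ∫⁻ y in Set.Ioo 0 1, ENNReal.ofReal (g k r y) ≤ k * ENNReal.ofReal (1 / (r + 1)) := by
    intro k
    rw [← ofReal_integral_eq_lintegral_ofReal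
      ((cg k).integrableOn_Icc.mono_set Set.Ioo_subset_Icc_self), ← integral_Ioc_eq_integral_Ioo,
      ← intervalIntegral.integral_of_le zero_le_one, ← ENNReal.ofReal_natCast,
      ← ENNReal.ofReal_mul (by positivity), mul_one_div]
    · exact ENNReal.ofReal_le_ofReal (g_int k r)
    · refine (ae_restrict_iff' measurableSet_Ioo).2 (.of_forall fun y hy => ?_)
      have : 0 ≤ 1 - y := by linarith [hy.2]
      have := hy.1.le
      exact sum_nonneg fun _ _ => by positivity
  have i3 : ENNReal.ofReal (∫ y in p..1, (y - p) / y ^ 2) ≤ ENNReal.ofReal (b / (r + 1)) := by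
    rw [intervalIntegral.integral_of_le hp1.le, integral_Ioc_eq_integral_Ioo]
    calc _ = ∫⁻ y in Set.Ioo p 1, ENNReal.ofReal ((y - p) / y ^ 2) :=
          ofReal_integral_eq_lintegral_ofReal (co.integrableOn_Icc.mono_set Set.Ioo_subset_Icc_self)
            ((ae_restrict_iff' measurableSet_Ioo).2 (.of_forall fun y hy =>
              div_nonneg (sub_nonneg.2 hy.1.le) (sq_nonneg _)))
      _ ≤ ∫⁻ y in Set.Ioo p 1, ∫⁻ k, ENNReal.ofReal (g k r y) ∂ξ := by
        refine setLIntegral_mono' measurableSet_Ioo fun y hy => ?_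
        have y0 : 0 < y ^ 2 := pow_pos (hp.trans hy.1) 2
        have := (hc y hy.1 hy.2).le
        simp only [h_eq, ENNReal.ofReal_mul y0.le] at this
        rw [lintegral_const_mul _ (measurable_from_top)] at this
        rw [ENNReal.ofReal_div_of_pos y0]
        exact ENNReal.div_le_of_le_mul' this
      _ ≤ ∫⁻ y in Set.Ioo 0 1, ∫⁻ k, ENNReal.ofReal (g k r y) ∂ξ :=
        lintegral_mono_set (Set.Ioo_subset_Ioo_left hp.le)
      _ = ∫⁻ k, (∫⁻ y in Set.Ioo 0 1, ENNReal.ofReal (g k r y)) ∂ξ := by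
        refine lintegral_lintegral_swap (Measurable.aemeasurable ?_)
        exact measurable_from_prod_countable_left fun k => (cg k).measurable.ennreal_ofReal
      _ ≤ ∫⁻ k : ℕ, k * ENNReal.ofReal (1 / (r + 1)) ∂ξ := lintegral_mono i2
      _ = _ := by
        rw [lintegral_mul_const _ measurable_from_top, hb, ← ENNReal.ofReal_mul hb0, mul_one_div]
  rw [ENNReal.ofReal_le_ofReal_iff (by positivity), i1] at i3
  rw [div_self hp.ne'] at i3
  simp at i3
  linarith

section
variable {Ω : Type} [MeasurableSpace Ω] (P : Measure Ω) [IsProbabilityMeasure P]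

open Classical in
noncomputable def cnt (A : Set Ω) (k : ℕ) (f : ℕ → Ω) : ℕ := ((range k).filter fun i => f i ∈ A).card

lemma cnt_succ (A : Set Ω) (k : ℕ) (f : ℕ → Ω) :
    cnt A (k + 1) f = cnt A k f + A.indicator 1 (f k) := by
  classical
  unfold cnt
  rw [range_add_one, filter_insert]
  by_cases e : f k ∈ A <;> simp [e]

lemma cnt_meas {A : Set Ω} (hA : MeasurableSet A) (S : Set ℕ) :
    ∀ k, (∀ i < k, i ∈ S) → Measurable[cylinderEvents S] (cnt A k)
  | 0, _ => by
    have : cnt A 0 = fun _ => 0 := by ext; simp [cnt]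
    rw [this]; exact measurable_const
  | k + 1, hk => by
    have : cnt A (k + 1) = fun f => cnt A k f + A.indicator 1 (f k) := funext (cnt_succ A k)
    rw [this]
    exact (cnt_meas hA S k fun i hi => hk i (by omega)).add
      ((measurable_one.indicator hA).comp (measurable_cylinderEvent_apply (hk k (by omega))))

lemma cnt_meas' {A : Set Ω} (hA : MeasurableSet A) (k : ℕ) : Measurable (cnt A k) :=
  (cnt_meas hA Set.univ k fun _ _ => trivial).mono cylinderEvents_le_pi le_rfl

lemma cnt_law {A : Set Ω} (hA : MeasurableSet A) : ∀ k r,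
    (Measure.infinitePi fun _ : ℕ => P).real {f | r ≤ cnt A k f} = h k r (P.real A)
  | _, 0 => by simp [h]
  | 0, r + 1 => by simp [h, cnt]
  | k + 1, r + 1 => by
    have key : ∀ (j : ℕ) (B : Set Ω), MeasurableSet B →
        (Measure.infinitePi fun _ : ℕ => P).real ({f | j ≤ cnt A k f} ∩ (fun f => f k) ⁻¹' B) =
        h k j (P.real A) * P.real B := fun j B hB => by
      rw [← cnt_law hA k j, Measure.real, Pool.Agent.Lib.helper3.Coins.indep_cyl _ (S := Set.Iio k)
        (T := {k}) (by simp) (measurableSet_le measurable_const (cnt_meas hA _ k fun _ hi => hi))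
        (measurable_cylinderEvent_apply (X := fun _ => Ω) (Set.mem_singleton k) hB),
        (measurePreserving_eval_infinitePi (fun _ : ℕ => P) k).measure_preimage hB.nullMeasurableSet,
        ENNReal.toReal_mul]
      rfl
    have e : {f | r + 1 ≤ cnt A (k + 1) f} = ({f | r ≤ cnt A k f} ∩ (fun f => f k) ⁻¹' A) ∪
        ({f | r + 1 ≤ cnt A k f} ∩ (fun f => f k) ⁻¹' Aᶜ) := by
      ext f
      by_cases e : f k ∈ A <;> simp [cnt_succ, e]
    rw [e, measureReal_union, key _ _ hA, key _ _ hA.compl, probReal_compl_eq_one_sub hA, h]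
    · ring
    · exact Set.disjoint_left.2 fun f a b => b.2 a.2
    · exact (measurableSet_le measurable_const (cnt_meas' hA k)).inter
        (measurable_pi_apply k hA.compl)

def sub (z : List ℕ → Ω) (i : ℕ) (w : List ℕ) : Ω := z (i :: w)

lemma branch : MeasurePreserving (fun z : List ℕ → Ω => (z [], sub z))
    (Measure.infinitePi fun _ => P)
    (P.prod (Measure.infinitePi fun _ : ℕ => Measure.infinitePi fun _ : List ℕ => P)) := by
  have ms : Measurable (sub : (List ℕ → Ω) → _) := by unfold sub; fun_prop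
  refine ⟨by fun_prop, ?_⟩
  have hi : IndepFun (fun z : List ℕ → Ω => z []) sub (Measure.infinitePi fun _ => P) := by
    rw [indepFun_iff_measure_inter_preimage_eq_mul]
    intro s t hs ht
    refine Pool.Agent.Lib.helper3.Coins.indep_cyl _ (S := {[]}) (T := {[]}ᶜ) disjoint_compl_right
      (measurable_cylinderEvent_apply (X := fun _ => Ω) (Set.mem_singleton _) hs) ?_
    have : Measurable[cylinderEvents {[]}ᶜ] (sub : (List ℕ → Ω) → _) :=
      @measurable_pi_lambda _ _ _ (cylinderEvents {[]}ᶜ) _ _ fun i =>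
        @measurable_pi_lambda _ _ _ (cylinderEvents {[]}ᶜ) _ _ fun w =>
          measurable_cylinderEvent_apply (X := fun _ => Ω) (i := i :: w) (by simp)
    exact this ht
  rw [hi.map_prod_eq_prod_map_map (measurable_pi_apply _).aemeasurable ms.aemeasurable,
    Measure.infinitePi_map_eval, ← Measure.infinitePi_map_curry (fun (_ : ℕ) (_ : List ℕ) => P),
    ← Measure.map_infinitePi_infinitePi_of_inj (P := fun _ : List ℕ => P)
      (f := fun q : ℕ × List ℕ => q.1 :: q.2) (fun a b e => by simpa [Prod.ext_iff] using e),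
    Measure.map_map (by fun_prop) (by fun_prop)]
  rfl

end

end Pool.Agent.H.MP_12274d_pr
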