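import Mathlib
import Pool.Agent.H.MP_12274d_pr.A
import Pool.Agent.Lib.helper3.Chain

/-! Forts in Galton-Watson trees. -/

set_option linter.unusedSectionVars false

namespace Pool.Agent.H.MP_12274d_pr

open MeasureTheory ProbabilityTheory Finset
open scoped ENNReal

def Inf {V : Type} (G : SimpleGraph V) (r : ℕ) (A : Set V) : ℕ → Set V
  | 0 => A
  | n + 1 => Inf G r A n ∪ {v | (r : ℕ∞) ≤ (G.neighborSet v ∩ Inf G r A n).encard}

noncomputable def pc {V : Type} (G : SimpleGraph V) (r : ℕ) : unitInterval :=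
  sInf {p | 0 < (Measure.infinitePi fun _ : V => (volume : Measure unitInterval))
    {ω | ∀ v, ∃ n, v ∈ Inf G r {u | ω u < p} n}}

def inT (a : List ℕ → ℕ) (v : List ℕ) : Prop := ∀ u i w, v = u ++ i :: w → i < a u

def tree (a : List ℕ → ℕ) : SimpleGraph {v // inT a v} :=
  SimpleGraph.fromRel fun u v => ∃ i, v.1 = u.1 ++ [i]

lemma Inf_mono {V : Type} (G : SimpleGraph V) (r : ℕ) {A B : Set V} (h : A ⊆ B) :
    ∀ n, Inf G r A n ⊆ Inf G r B n
  | 0 => h
  | n + 1 => Set.union_subset_union (Inf_mono G r h n) fun _ hv =>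
    le_trans hv (Set.encard_le_encard (Set.inter_subset_inter_right _ (Inf_mono G r h n)))

lemma fort {V : Type} (G : SimpleGraph V) (r : ℕ) {A K : Set V} (h1 : ∀ v ∈ K, v ∉ A)
    (h2 : ∀ v ∈ K, (G.neighborSet v \ K).encard < r) : ∀ n, ∀ v ∈ K, v ∉ Inf G r A n
  | 0 => h1
  | n + 1 => fun v hv h => h.elim (fort G r h1 h2 n v hv) fun h => (h2 v hv).not_ge
    (le_trans h (Set.encard_le_encard fun u hu => ⟨hu.1, fun k => fort G r h1 h2 n u k hu.2⟩))

lemma Inf_meas {V Ω : Type} [Countable V] [MeasurableSpace Ω] (G : SimpleGraph V) (r : ℕ)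
    {A : Ω → Set V} (hA : ∀ v, MeasurableSet {ω | v ∈ A ω}) :
    ∀ n v, MeasurableSet {ω | v ∈ Inf G r (A ω) n}
  | 0, v => hA v
  | n + 1, v => by
    have e : {ω | v ∈ Inf G r (A ω) (n + 1)} = {ω | v ∈ Inf G r (A ω) n} ∪
        ⋃ T : Finset V, ⋃ _ : T.card = r ∧ ∀ u ∈ T, G.Adj v u,
          ⋂ u ∈ T, {ω | u ∈ Inf G r (A ω) n} := by
      ext ω
      simp only [Inf, Set.mem_union, Set.mem_ofPred_eq, Set.mem_iUnion, Set.mem_iInter]
      refine or_congr Iff.rfl ⟨fun h => ?_, fun ⟨T, ⟨a, b⟩, c⟩ => ?_⟩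
      · obtain ⟨t, a, b⟩ := Set.exists_subset_encard_eq h
        lift t to Finset V using Set.finite_of_encard_eq_coe b
        exact ⟨t, ⟨by simpa using b, fun u hu => (a hu).1⟩, fun u hu => (a hu).2⟩
      · refine le_trans (b := (T : Set V).encard) (by simp [a]) ?_
        exact Set.encard_le_encard fun u hu => ⟨b u hu, c u hu⟩
    rw [e]
    exact (Inf_meas G r hA n v).union (.iUnion fun T => .iUnion fun _ =>
      T.measurableSet_biInter fun u _ => Inf_meas G r hA n u)

abbrev Om := List ℕ → ℕ × unitInterval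

def S (r : ℕ) (p : unitInterval) : ℕ → Set Om
  | 0 => Set.univ
  | n + 1 => {z | p ≤ (z []).2 ∧ cnt (S r p n)ᶜ (z []).1 (sub z) < r}

lemma cnt_m {A : Set Om} (hA : MeasurableSet A) :
    Measurable fun x : (ℕ × unitInterval) × (ℕ → Om) => cnt A x.1.1 x.2 :=
  (measurable_from_prod_countable_right (f := fun x : ℕ × (ℕ → Om) => cnt A x.1 x.2)
    fun k => cnt_meas' hA k).comp (measurable_fst.fst.prodMk measurable_snd)

lemma msub : Measurable fun z : Om => (z [], sub z) := by unfold sub; fun_prop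

lemma D_meas {A : Set Om} (hA : MeasurableSet A) (p : unitInterval) (r : ℕ) :
    MeasurableSet {x : (ℕ × unitInterval) × (ℕ → Om) | p ≤ x.1.2 ∧ cnt A x.1.1 x.2 < r} :=
  (measurableSet_le measurable_const measurable_fst.snd).inter
    (measurableSet_lt (cnt_m hA) measurable_const)

lemma S_meas (r : ℕ) (p : unitInterval) : ∀ n, MeasurableSet (S r p n)
  | 0 => .univ
  | n + 1 => msub (D_meas (S_meas r p n).compl p r)

lemma cnt_mono {A B : Set Om} (h : A ⊆ B) (k : ℕ) (f : ℕ → Om) : cnt A k f ≤ cnt B k f := by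
  classical
  unfold cnt
  convert card_le_card (monotone_filter_right (range k) (p := fun i => f i ∈ A)
    (q := fun i => f i ∈ B) fun i _ hi => h hi)

lemma S_anti (r : ℕ) (p : unitInterval) : Antitone (S r p) := by
  refine antitone_nat_of_succ_le fun n => ?_
  induction n with
  | zero => exact Set.subset_univ _
  | succ n ih => exact fun z hz => ⟨hz.1, (cnt_mono (Set.compl_subset_compl.2 ih) _ _).trans_lt hz.2⟩

lemma S_inf {r : ℕ} {p : unitInterval} {z : Om} (hz : z ∈ ⋂ n, S r p n) :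
    p ≤ (z []).2 ∧ cnt (⋂ n, S r p n)ᶜ (z []).1 (sub z) < r := by
  classical
  rw [Set.mem_iInter] at hz
  refine ⟨(hz 1).1, ?_⟩
  have : ∀ i, ∀ᶠ n in Filter.atTop, sub z i ∈ (⋂ n, S r p n)ᶜ → sub z i ∈ (S r p n)ᶜ := fun i => by
    by_cases e : sub z i ∈ ⋂ n, S r p n
    · exact .of_forall fun n h => absurd e h
    · obtain ⟨m, hm⟩ := not_forall.1 (mt Set.mem_iInter.2 e)
      exact (Filter.eventually_ge_atTop m).mono fun n hn _ h => hm (S_anti r p hn h)
  obtain ⟨n, hn⟩ := ((range (z []).1).eventually_all.2 fun i _ => this i).exists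
  refine lt_of_le_of_lt ?_ (hz (n + 1)).2
  unfold cnt
  exact card_le_card fun i hi => by
    simp only [mem_filter] at hi ⊢
    exact ⟨hi.1, hn i hi.1 hi.2⟩

variable (ξ : Measure ℕ) [IsProbabilityMeasure ξ]

noncomputable abbrev PP : Measure Om := Measure.infinitePi fun _ => ξ.prod volume

lemma D_law {A : Set Om} (hA : MeasurableSet A) (p : unitInterval) (r : ℕ) :
    PP ξ {z | p ≤ (z []).2 ∧ cnt A (z []).1 (sub z) < r} =
      ENNReal.ofReal (1 - p) * ∫⁻ k, ENNReal.ofReal (1 - h k r ((PP ξ).real A)) ∂ξ := by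
  have := (branch (ξ.prod volume)).measure_preimage (D_meas hA p r).nullMeasurableSet
  refine this.trans ?_
  rw [Measure.prod_apply (D_meas hA p r)]
  have e : ∀ x : ℕ × unitInterval, (Measure.infinitePi fun _ : ℕ => PP ξ) (Prod.mk x ⁻¹'
      {x : (ℕ × unitInterval) × (ℕ → Om) | p ≤ x.1.2 ∧ cnt A x.1.1 x.2 < r}) =
      ENNReal.ofReal (1 - h x.1 r ((PP ξ).real A)) * (Set.Ici p).indicator 1 x.2 := fun x => by
    by_cases e : p ≤ x.2
    · rw [← cnt_law _ hA, ← probReal_compl_eq_one_sub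
        (measurableSet_le measurable_const (cnt_meas' hA _)), ofReal_measureReal]
      simp [e, Set.compl_ofPred]
    · simp [e]
  rw [lintegral_congr e, lintegral_prod_mul (f := fun k => ENNReal.ofReal (1 - h k r ((PP ξ).real A)))
    measurable_from_top.aemeasurable (measurable_one.indicator measurableSet_Ici).aemeasurable,
    lintegral_indicator_one measurableSet_Ici, unitInterval.volume_Ici, mul_comm]

lemma S_lb {r : ℕ} {p : unitInterval} {y : ℝ} (h1 : p < y) (h2 : y < 1)
    (h3 : ∫⁻ k, ENNReal.ofReal (h k r y) ∂ξ ≤ ENNReal.ofReal (y - p)) :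
    ∀ n, 1 - y ≤ (PP ξ).real (S r p n)
  | 0 => by have := p.2.1; simp [S]; linarith
  | n + 1 => by
    have ih := S_lb h1 h2 h3 n
    have p0 := p.2.1
    have a : (PP ξ).real (S r p n)ᶜ ≤ y := by
      rw [probReal_compl_eq_one_sub (S_meas r p n)]; linarith
    have b : ENNReal.ofReal (1 - (y - p)) ≤
        ∫⁻ k, ENNReal.ofReal (1 - h k r ((PP ξ).real (S r p n)ᶜ)) ∂ξ := by
      calc _ ≤ 1 - ∫⁻ k, ENNReal.ofReal (h k r y) ∂ξ := by
            rw [ENNReal.ofReal_sub _ (by linarith), ENNReal.ofReal_one]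
            exact tsub_le_tsub_left h3 _
        _ = ∫⁻ _, 1 ∂ξ - ∫⁻ k, ENNReal.ofReal (h k r y) ∂ξ := by simp
        _ ≤ ∫⁻ k, 1 - ENNReal.ofReal (h k r y) ∂ξ := lintegral_sub_le _ _ measurable_from_top
        _ ≤ _ := lintegral_mono fun k => by
          rw [tsub_le_iff_right, ← ENNReal.ofReal_one]
          refine le_trans (ENNReal.ofReal_le_ofReal ?_) ENNReal.ofReal_add_le
          linarith [h_mono measureReal_nonneg a h2.le k r]
    refine (ENNReal.ofReal_le_iff_le_toReal (measure_ne_top _ _)).1 ?_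
    rw [S, D_law ξ (S_meas r p n).compl]
    refine le_trans ?_ (mul_le_mul_right b _)
    rw [← ENNReal.ofReal_mul (by linarith)]
    exact ENNReal.ofReal_le_ofReal (by nlinarith)

def F (r : ℕ) (p : unitInterval) : Set Om :=
  {z | p ≤ (z []).2 ∧ cnt (⋂ n, S r p n)ᶜ (z []).1 (sub z) < 1}

lemma F_meas (r : ℕ) (p : unitInterval) : MeasurableSet (F r p) :=
  msub (D_meas (MeasurableSet.iInter (S_meas r p)).compl p 1)

lemma F_pos {r : ℕ} {p : unitInterval} {y : ℝ} (h1 : p < y) (h2 : y < 1)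
    (h3 : ∫⁻ k, ENNReal.ofReal (h k r y) ∂ξ ≤ ENNReal.ofReal (y - p)) : PP ξ (F r p) ≠ 0 := by
  have a : ENNReal.ofReal (1 - y) ≤ PP ξ (⋂ n, S r p n) := by
    rw [(S_anti r p).measure_iInter (fun n => (S_meas r p n).nullMeasurableSet)
      ⟨0, measure_ne_top _ _⟩]
    exact le_iInf fun n => (ENNReal.ofReal_le_iff_le_toReal (measure_ne_top _ _)).2
      (S_lb ξ h1 h2 h3 n)
  rw [ENNReal.ofReal_le_iff_le_toReal (measure_ne_top _ _)] at a
  have b : (PP ξ).real (⋂ n, S r p n)ᶜ < 1 := by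
    rw [probReal_compl_eq_one_sub (.iInter (S_meas r p))]
    exact sub_lt_self _ (lt_of_lt_of_le (by linarith) a)
  rw [F, D_law ξ (MeasurableSet.iInter (S_meas r p)).compl]
  refine mul_ne_zero (ENNReal.ofReal_pos.2 (by linarith)).ne' fun e => ?_
  rw [lintegral_eq_zero_iff measurable_from_top] at e
  obtain ⟨k, hk⟩ := e.exists
  have := h_diff ((PP ξ).real (⋂ n, S r p n)ᶜ) k 0
  simp only [h, Nat.choose_zero_right, Nat.cast_one, pow_zero, zero_add] at this
  simp only [this] at hk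
  exact (ENNReal.ofReal_pos.2 (mul_pos (by norm_num) (pow_pos (sub_pos.2 b) _))).ne' hk

def N (A : Set Om) : Set Om := {z | ∀ v, inT (fun u => (z u).1) v → (fun w => z (v ++ w)) ∉ A}

lemma N_meas {A : Set Om} (hA : MeasurableSet A) : MeasurableSet (N A) := by
  have : ∀ v, MeasurableSet {z : Om | (fun w => z (v ++ w)) ∉ A} := fun v =>
    (show Measurable fun (z : Om) w => z (v ++ w) by fun_prop) hA.compl
  unfold N inT
  simp only [Set.ofPred_forall]
  refine .iInter fun v => ?_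
  simp only [imp_iff_not_or (b := _ ∉ A), Set.ofPred_or]
  refine MeasurableSet.union (MeasurableSet.compl (s := {z : Om | ∀ u i w, v = u ++ i :: w →
    i < (z u).1}) ?_) (this v)
  simp only [Set.ofPred_forall]
  exact .iInter fun u => .iInter fun i => .iInter fun w => .iInter fun _ =>
    measurableSet_lt measurable_const (by fun_prop)

lemma N_sub {A : Set Om} {z : Om} (hz : z ∈ N A) {i : ℕ} (hi : i < (z []).1) : sub z i ∈ N A := by
  intro v hv
  refine hz (i :: v) fun u j w e => ?_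
  cases u with
  | nil => obtain ⟨rfl, -⟩ := List.cons.inj e; exact hi
  | cons a u => obtain ⟨rfl, e'⟩ := List.cons.inj e; exact hv u j w e'

lemma N_null {A : Set Om} (hA : MeasurableSet A) (h0 : PP ξ A ≠ 0) (h1 : ξ {0} = 0)
    (h2 : ξ (Set.Ici 2) ≠ 0) : PP ξ (N A) = 0 := by
  have hN := N_meas hA
  have key : ∀ (B : Set ℕ) (C : Set Om), MeasurableSet C →
      PP ξ {z | (z []).1 ∈ B ∧ sub z 0 ∈ N A ∧ sub z 1 ∈ C} = ξ B * (PP ξ (N A) * PP ξ C) := by
    intro B C hC
    have m : MeasurableSet ((B ×ˢ (Set.univ : Set unitInterval)) ×ˢ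
        ((({0, 1} : Finset ℕ) : Set ℕ).pi fun i => if i = 0 then N A else C)) :=
      (MeasurableSet.prod .of_discrete .univ).prod
        (.pi (Set.to_countable _) fun i _ => by split_ifs <;> assumption)
    have := (branch (ξ.prod volume)).measure_preimage m.nullMeasurableSet
    rw [Measure.prod_prod, Measure.prod_prod, Measure.infinitePi_pi _
      fun i _ => by split_ifs <;> assumption] at this
    simpa [Set.preimage] using this
  have a := key Set.univ Set.univ .univ
  have b := key (Set.Ici 2) A hA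
  simp only [measure_univ, one_mul, mul_one] at a
  have z0 : PP ξ {z | (z []).1 = 0} = 0 := by
    have := (measurePreserving_eval_infinitePi (fun _ : List ℕ => ξ.prod volume) []).measure_preimage
      (s := ({0} : Set ℕ) ×ˢ (Set.univ : Set unitInterval))
      (MeasurableSet.prod .of_discrete .univ).nullMeasurableSet
    simpa [Set.preimage, h1] using this
  have d : PP ξ (N A) + ξ (Set.Ici 2) * (PP ξ (N A) * PP ξ A) ≤ PP ξ (N A) := by
    rw [← b, ← measure_union]
    · refine le_trans (measure_mono ?_) ((measure_union_le {z : Om | (z []).1 = 0}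
        {z | (z []).1 ∈ Set.univ ∧ sub z 0 ∈ N A ∧ sub z 1 ∈ Set.univ}).trans (by rw [z0, a, zero_add]))
      rintro z (hz | hz)
      · rcases Nat.eq_zero_or_pos (z []).1 with e | e
        · exact .inl e
        · exact .inr ⟨trivial, N_sub hz e, trivial⟩
      · exact .inr ⟨trivial, hz.2.1, trivial⟩
    · exact Set.disjoint_left.2 fun z hz h => N_sub hz (i := 1) h.1 [] (by simp [inT]) h.2.2
    · have m : ∀ i, Measurable fun z : Om => sub z i := fun i => by unfold sub; fun_prop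
      exact ((show Measurable fun z : Om => (z []).1 by fun_prop) measurableSet_Ici).inter
        ((m 0 hN).inter (m 1 hA))
  have := (ENNReal.add_le_add_iff_left (measure_ne_top _ _)).1 (d.trans_eq (add_zero _).symm)
  simpa [h0, h2] using this

inductive KK (z : Om) (A : Set Om) (v : List ℕ) : List ℕ → Prop
  | base : KK z A v v
  | step (u i) : KK z A v u → sub (fun w => z (u ++ w)) i ∈ A → KK z A v (u ++ [i])

lemma KK_inv {z : Om} {A : Set Om} {v x : List ℕ} (k : KK z A v x) : x = v ∨ ∃ u i, x = u ++ [i] ∧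
    KK z A v u ∧ sub (fun w => z (u ++ w)) i ∈ A := by
  cases k with
  | base => exact .inl rfl
  | step u i k h => exact .inr ⟨u, i, rfl, k, h⟩

lemma perc_N {r : ℕ} (hr : 2 ≤ r) {p : unitInterval} (a : List ℕ → ℕ) (ω : List ℕ → unitInterval)
    (hz : ∀ v, ∃ n, v ∈ Inf (tree a) r {u | ω u.1 < p} n) : (fun v => (a v, ω v)) ∈ N (F r p) := by
  classical
  intro v hv hF
  set z : Om := fun v => (a v, ω v)
  obtain ⟨n, hn⟩ := hz ⟨v, hv⟩
  have ch : ∀ u : {v // inT a v}, KK z (⋂ n, S r p n) v u.1 →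
      ({x | (∃ i, x.1 = u.1 ++ [i]) ∧ ¬ KK z (⋂ n, S r p n) v x.1} : Set {v // inT a v}).encard ≤
        cnt (⋂ n, S r p n)ᶜ (a u.1) (sub fun w => z (u.1 ++ w)) := fun u hu => by
    rw [cnt, ← Set.encard_coe_eq_coe_finsetCard]
    refine Set.encard_le_encard_of_injOn (f := fun x => x.1.getLastD 0) ?_ ?_
    · rintro x ⟨⟨i, e⟩, hx⟩
      simp only [e, List.getLastD_concat, coe_filter, mem_range, Set.mem_ofPred_eq]
      exact ⟨x.2 u.1 i [] e, fun h => hx (e ▸ .step _ _ hu h)⟩
    · rintro x ⟨⟨i, e⟩, -⟩ x' ⟨⟨j, e'⟩, -⟩ h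
      simp only [e, e', List.getLastD_concat] at h
      exact Subtype.ext (by rw [e, e', h])
  refine fort (tree a) r (K := {x | KK z (⋂ n, S r p n) v x.1}) ?_ ?_ n ⟨v, hv⟩ .base hn
  · rintro ⟨u, hu⟩ k
    refine (not_lt (a := ω u)).2 ?_
    rcases KK_inv k with rfl | ⟨u, i, rfl, k, h⟩
    · simpa [z] using hF.1
    · simpa [z, sub] using (S_inf h).1
  · rintro ⟨u, hu⟩ k
    have c := ch ⟨u, hu⟩ k
    rcases KK_inv k with e | ⟨u, i, rfl, k, h⟩
    · obtain rfl : v = u := e.symm
      have d := hF.2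
      simp only [z, List.append_nil, Nat.lt_one_iff] at d
      simp only [z, d] at c
      refine lt_of_le_of_lt (b := 1) (Set.encard_le_one_iff.2 fun x x' hx hx' => ?_)
        (by exact_mod_cast hr)
      have : ∀ x ∈ (tree a).neighborSet ⟨v, hv⟩ \ {x | KK z (⋂ n, S r p n) v x.1},
          x.1 = v.dropLast := fun x hx => by
        rcases ((SimpleGraph.fromRel_adj ..).1 (show (tree a).Adj _ _ from hx.1)).2 with e | ⟨i, e⟩
        · exact (Set.eq_empty_iff_forall_notMem.1 (Set.encard_eq_zero.1 (le_zero_iff.1 c)) x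
            ⟨e, hx.2⟩).elim
        · simp only at e; simp [e]
      exact Subtype.ext ((this x hx).trans (this x' hx').symm)
    · have d := (S_inf h).2
      refine lt_of_le_of_lt ((Set.encard_le_encard fun x hx => ?_).trans c) ?_
      · rcases ((SimpleGraph.fromRel_adj ..).1 (show (tree a).Adj _ _ from hx.1)).2 with e | ⟨j, e⟩
        · exact ⟨e, hx.2⟩
        · rw [List.append_inj_left' e rfl] at k
          exact absurd k hx.2
      · have e : (fun w => z (u ++ [i] ++ w)) = sub (fun w => z (u ++ w)) i := by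
          ext1 w; simp [sub]
        rw [e]
        exact_mod_cast (by simpa [sub, z] using d)

theorem main (r : ℕ) (hr : 2 ≤ r) : ∃ c : ℝ, 0 < c ∧ ∀ (ξ : Measure ℕ) [IsProbabilityMeasure ξ]
    (b : ℝ), r ≤ b → ξ {0} = 0 → ∫⁻ k, (k : ℝ≥0∞) ∂ξ = ENNReal.ofReal b →
    ∀ᵐ a ∂(Measure.infinitePi fun _ : List ℕ => ξ),
      c * Real.exp (-b / (r - 1)) ≤ (pc (tree a) r : ℝ) := by
  refine ⟨Real.exp (-2), Real.exp_pos _, fun ξ _ b hb h0 hm => ?_⟩
  obtain ⟨r, rfl⟩ := Nat.exists_eq_add_of_le' hr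
  have b2 : 2 ≤ b := le_trans (by exact_mod_cast hr) hb
  rw [← Real.exp_add, show ((r + 2 : ℕ) : ℝ) - 1 = r + 1 by push_cast; ring]
  have q0 : 0 ≤ b / (r + 1) := by positivity
  have p1 : Real.exp (-2 + -b / (r + 1)) < 1 := Real.exp_lt_one_iff.2 (by rw [neg_div]; linarith)
  obtain ⟨y, y1, y2, y3⟩ := exy ξ r (by linarith) hm (Real.exp_pos _) p1
    (by rw [Real.log_exp, neg_div]; linarith)
  let p : unitInterval := ⟨_, (Real.exp_pos _).le, p1.le⟩
  have h2 : ξ (Set.Ici 2) ≠ 0 := fun e => by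
    have : ∫⁻ k, (k : ℝ≥0∞) ∂ξ ≤ ∫⁻ _, 1 ∂ξ := lintegral_mono_ae
      ((measure_eq_zero_iff_ae_notMem.1 e).mono fun k hk => by
        exact_mod_cast Nat.lt_succ_iff.1 (not_le.1 hk))
    rw [hm, lintegral_one, measure_univ, ENNReal.ofReal_le_one] at this
    linarith
  have := N_null ξ (F_meas (r + 2) p) (F_pos ξ (p := p) y1 y2 y3) h0 h2
  have := Measure.ae_ae_of_ae_prod ((Pool.Agent.Lib.helper3.Chain.zip (fun _ : List ℕ => ξ)
    (fun _ => (volume : Measure unitInterval))).quasiMeasurePreserving.ae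
    (measure_eq_zero_iff_ae_notMem.1 this))
  refine this.mono fun a ha => ?_
  change (p : ℝ) ≤ _
  refine Subtype.coe_le_coe.2 (le_sInf fun q hq => not_lt.1 fun e => (Set.mem_ofPred_eq ▸ hq :).ne' ?_)
  rw [← Measure.map_infinitePi_infinitePi_of_inj (P := fun _ : List ℕ => (volume : Measure unitInterval))
    (f := Subtype.val) Subtype.val_injective, Measure.map_apply (by fun_prop)]
  · refine measure_eq_zero_iff_ae_notMem.2 (ha.mono fun ω h1 h => h1 (perc_N hr a ω fun v => ?_))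
    obtain ⟨n, hn⟩ := h v
    exact ⟨n, Inf_mono _ _ (fun u hu => lt_trans hu e) n hn⟩
  · simp only [Set.ofPred_forall, Set.ofPred_exists]
    exact .iInter fun v => .iUnion fun n => Inf_meas _ _ (A := fun ω : _ → unitInterval => {u | ω u < q})
      (fun u => measurableSet_lt (measurable_pi_apply u) measurable_const) n v

end Pool.Agent.H.MP_12274d_pr
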